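import Pool.Agent.Helper86_UL6.TOP2
import Pool.Agent.Helper86_UL6.DCA
import Pool.Agent.Helper86_UL6.GCC
import Pool.Agent.Helper86_UL6.TDD
import Pool.Agent.Helper37_UL6.CHG
import Pool.Agent.Helper37_UL6.SEQ
import Pool.Agent.Helper27_UL6.CHC
import Pool.Agent.Helper46_UL6.SEG
import Pool.Agent.Helper23_UL6.PMN
import Pool.Agent.Helper23_UL6.PLM
import Pool.Agent.Helper77_UL6.PQA
import Pool.Agent.Helper75_UL6.PNA
import Pool.Agent.Helper60_UL6.PNM
import Pool.Agent.Helper7_UL6.SEB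
import Pool.Agent.Helper7_UL6.FGV
import Pool.Agent.Helper92_UL6.FGI
import Pool.Agent.Helper62_UL6.TDA
import Pool.Agent.Helper62_UL6.TDV
import Pool.Agent.Helper62_UL6.GCB
import Pool.Agent.Helper2_UL6.LSB
import Pool.Agent.Helper2_UL6.DLB
import Pool.Agent.Helper32_UL6.LTF
import Pool.Agent.Helper38_UL6.GCT
import Pool.Agent.Helper59_UL6.GCY
import Pool.Agent.Helper59_UL6.DCY
import Pool.Agent.Helper66_UL6.DSL
import Pool.Agent.Helper19_UL6.INF
import Pool.Agent.Helper19_UL6.INM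
import Pool.Agent.Helper3_UL6.SCL
import Pool.Agent.Helper3_UL6.SCM
import Pool.Agent.Helper15_UL6.STF
import Pool.Agent.Helper15_UL6.SDF
import Pool.Agent.Helper90_UL3.ADJ
import Pool.Agent.Helper88_UL3.LPD
import Pool.Agent.Helper7_UL4.LPG
import Pool.Agent.Helper27_UL5.HMX
import Pool.Agent.Helper77_UL5.CAP
import Pool.Agent.Helper74_UL5.PKA
import Pool.Agent.Helper37_UL5.CHB
import Pool.Agent.Helper46_UL5.SEL
import Pool.Agent.Helper92_UL5.DCI
import Pool.Agent.Helper32_UL5.LAT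
import Pool.Agent.Helper7_UL5.DCB
import Pool.Agent.Helper38_UL5.CGD
import Pool.Agent.Helper19_UL5.INA
import Pool.Agent.Helper15_UL5.STC
import Pool.Agent.Helper27_UL5.DGD
import Pool.Agent.Helper15_UL5.INB
import Pool.Agent.Helper62_UL5.SDC

/-!
# Ulam's bound for frusta, double frusta and their halves

Let `C` be a planar compact convex set in 3-space, centrally symmetric about `c`, let `p` be a point and
`0 ≤ t ≤ 1`. `D = conv (C ∪ (p + t (C - c)) ∪ (2 c - p + t (C - c)))` is the double frustum (`t = 0`: double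
cone, `t = 1`: cylinder or prism; right or oblique). `K` is `D`, or the frustum `conv (C ∪ (p + t (C - c)))`
(`t = 0`: cone), or one of the two halves of `D` cut off by any plane through `c`. Then `K` has a packing by
congruent copies of density at least `0.7405 > pi / (3 sqrt 2)`, and at least `16 / 21` if `t = 0`.
-/

set_option autoImplicit false

namespace Pool.Agent.Results.MP_c7c9bf_co.Frusta

open MeasureTheory Pool.Agent.UL3 Pool.Agent.UL4 Pool.Agent.UL5 Pool.Agent.UL6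

theorem result :
    Real.pi / (3 * Real.sqrt 2) < 1481 / 2000 ∧
    ∀ (C : Set (EuclideanSpace ℝ (Fin 3))) (c n p : EuclideanSpace ℝ (Fin 3)) (t : ℝ),
      IsCompact C → Convex ℝ C → (∀ x ∈ C, (2 : ℝ) • c - x ∈ C) → n ≠ 0 →
      (∀ x ∈ C, inner ℝ (x - c) n = 0) → 0 ≤ t → t ≤ 1 →
      ∀ D K : Set (EuclideanSpace ℝ (Fin 3)),
        D = convexHull ℝ (C ∪ (fun x => p + t • (x - c)) '' C ∪
          (fun x => (2 : ℝ) • c - p + t • (x - c)) '' C) →
        (K = D ∨ K = convexHull ℝ (C ∪ (fun x => p + t • (x - c)) '' C) ∨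
          ∃ m : EuclideanSpace ℝ (Fin 3), m ≠ 0 ∧ K = {x | x ∈ D ∧ 0 ≤ inner ℝ (x - c) m}) →
        (interior K).Nonempty →
        ∃ f : ℕ → (EuclideanSpace ℝ (Fin 3) ≃ᵢ EuclideanSpace ℝ (Fin 3)),
          (∀ i j : ℕ, i ≠ j →
            Disjoint (interior ((f i) '' K)) (interior ((f j) '' K))) ∧
          ∃ κ : ℝ, 1481 / 2000 ≤ κ ∧ (t = 0 → 16 / 21 ≤ κ) ∧
            ENNReal.ofReal κ ≤
              Filter.limsup
                (fun R : ℝ =>
                  volume ((⋃ i : ℕ, (f i) '' K) ∩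
                      Metric.ball (0 : EuclideanSpace ℝ (Fin 3)) R) /
                    volume (Metric.ball (0 : EuclideanSpace ℝ (Fin 3)) R))
                Filter.atTop := by
  have hHmx : HmxStmt := Pool.Agent.UL5.H27.hmx
  have hSel : SelStmt := Pool.Agent.UL5.H46.sel hHmx
    (Pool.Agent.UL5.H74.pka (Pool.Agent.UL5.H77.cap hHmx)) (Pool.Agent.UL5.H37.chb hHmx)
  have hLat : LatStmt := Pool.Agent.UL5.H32.lat hHmx Pool.Agent.UL5.H92.dci
  have hCgd : CgdStmt := Pool.Agent.UL5.H38.cgd hSel hLat Pool.Agent.UL5.H7.dcb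
  have hDgd : DgdStmt := Pool.Agent.UL5.H27.dgd hSel hLat Pool.Agent.UL5.H7.dcb
  have hChc : ChcStmt := Pool.Agent.UL6.H27.chc
  have hSeg : Pool.Agent.UL6.SegStmt := Pool.Agent.UL6.H46.seg Pool.Agent.UL6.H37.chg hChc
  have hSeq : SeqStmt := Pool.Agent.UL6.H37.seq hSeg hChc
  have hPlm : PlmStmt := Pool.Agent.UL6.H23.plm Pool.Agent.UL6.H23.pmn
    (Pool.Agent.UL6.H60.pnm Pool.Agent.UL6.H77.pqa Pool.Agent.UL6.H75.pna)
  have hSeb : SebStmt := Pool.Agent.UL6.H7.seb hSeg hChc hPlm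
  have hFgv : FgvStmt := Pool.Agent.UL6.H7.fgv
  have hFgi : FgiStmt := Pool.Agent.UL6.H92.fgi
  have hTda : TdaStmt := Pool.Agent.UL6.H62.tda
  have hLsb : LsbStmt := Pool.Agent.UL6.H2.lsb hFgi
  have hLtf : LtfStmt := Pool.Agent.UL6.H32.ltf hTda
  have hGcc : GccStmt := Pool.Agent.UL6.H86.gcc hFgv hFgi Pool.Agent.UL5.H7.dcb hSel hLat
  have hGct : GctStmt := Pool.Agent.UL6.H38.gct hSeq hTda hFgv hFgi hLtf
  have hGcb : GcbStmt := Pool.Agent.UL6.H62.gcb hSeb hLsb hFgv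
  have hGcy : GcyStmt := Pool.Agent.UL6.H59.gcy hFgv hFgi
  have hInf : InfStmt := Pool.Agent.UL6.H19.inf
  have hScl : SclStmt := Pool.Agent.UL6.H3.scl hInf
  have hStf : StfStmt := Pool.Agent.UL6.H15.stf
  have hTdd : TddStmt := Pool.Agent.UL6.H86.tdd'
  have hTdv : TdvStmt := Pool.Agent.UL6.H62.tdv
  have hDlb : DlbStmt := Pool.Agent.UL6.H2.dlb hTdd
  have hDsl : DslStmt := Pool.Agent.UL6.H66.dsl hSeb hDlb hTdd
  have hDcy : DcyStmt := Pool.Agent.UL6.H59.dcy hTdd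
  have hDca : DcaStmt := Pool.Agent.UL6.H86.dca hTdv hSeq hLtf Pool.Agent.UL3.H90.adj hSel hLat
  have hInm : InmStmt := Pool.Agent.UL6.H19.inm
  have hScm : ScmStmt := Pool.Agent.UL6.H3.scm hInm
  have hSdf : SdfStmt := Pool.Agent.UL6.H15.sdf
  exact Pool.Agent.UL6.H86.top2
    (Pool.Agent.UL5.H31.top Pool.Agent.UL5.H7.dcb Pool.Agent.UL5.H15.inb
      Pool.Agent.UL5.H62.sdc hDgd Pool.Agent.UL4.H7.lpg Pool.Agent.UL3.H88.lpd
      Pool.Agent.UL5.H19.ina Pool.Agent.UL5.H15.stc hCgd)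
    (Pool.Agent.UL6.H86.top hGcc hGct hGcb hGcy hScl hInf hStf hFgv Pool.Agent.UL4.H7.lpg)
    hDca hScm hDsl hDcy hInm hSdf hTdd Pool.Agent.UL4.H7.lpg Pool.Agent.UL3.H88.lpd

end Pool.Agent.Results.MP_c7c9bf_co.Frusta
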