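import Pool.Agent.Helper31_UL3.HALF
import Pool.Agent.Helper7_UL4.LPG
import Pool.Agent.Helper77_UL3.PAA
import Pool.Agent.Helper3_UL3.PAB
import Pool.Agent.Helper75_UL3.PAC
import Pool.Agent.Helper23_UL3.PLN
import Pool.Agent.Helper39_UL3.AVD
import Pool.Agent.Helper51_UL3.HGT
import Pool.Agent.Helper36_UL3.SEC
import Pool.Agent.Helper46_UL3.STK
import Pool.Agent.Helper19_UL3.CCV
import Pool.Agent.Helper34_UL3.FUB
import Pool.Agent.Helper82_UL3.TZR
import Pool.Agent.Helper81_UL3.GPF
import Pool.Agent.Helper80_UL3.EEA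
import Pool.Agent.Helper13_UL3.EEB
import Pool.Agent.Helper42_UL3.EEC
import Pool.Agent.Helper16_UL3.DIR
import Pool.Agent.Helper2_UL3.INV
import Pool.Agent.Helper24_UL3.ISO
import Pool.Agent.Helper30_UL3.ROT
import Pool.Agent.Helper45_UL3.UNI
import Pool.Agent.Helper9_UL3.INC
import Pool.Agent.Helper55_UL3.POL
import Pool.Agent.Helper59_UL3.NRV
import Pool.Agent.Helper81_UL3.SLB
import Pool.Agent.Helper94_UL3.BAL
import Pool.Agent.Helper39_UL3.AVG
import Pool.Agent.Helper19_UL3.GOD
import Pool.Agent.Helper88_UL3.LPD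
import Pool.Agent.Helper90_UL3.ADJ

/-!
# Packings of centrally symmetric convex bodies in 3-space and of their halves

Every centrally symmetric convex body `D` in 3-space has a lattice packing of density at least
`1 / sqrt 3 = 0.57735`, and each half of `D` cut off by a plane through its centre has a packing by
congruent copies of density at least `1 / sqrt 3`.
-/

set_option autoImplicit false

namespace Pool.Agent.Results.MP_c7c9bf_co.SymmetricBodies

open MeasureTheory Pool.Agent.UL3

theorem result :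
    ∀ (D : Set (EuclideanSpace ℝ (Fin 3))) (c : EuclideanSpace ℝ (Fin 3)),
      IsCompact D → Convex ℝ D → (interior D).Nonempty → (∀ x ∈ D, (2 : ℝ) • c - x ∈ D) →
      (∃ v : Fin 3 → EuclideanSpace ℝ (Fin 3),
        0 < |(Matrix.of fun i j => v i j).det| ∧
          (∀ n : Fin 3 → ℤ, n ≠ 0 → Disjoint (interior D)
            ((fun x => x + ∑ i, (n i : ℝ) • v i) '' interior D)) ∧
          1 / Real.sqrt 3 * |(Matrix.of fun i j => v i j).det| ≤
            (volume : Measure (EuclideanSpace ℝ (Fin 3))).real D) ∧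
      ∀ K : Set (EuclideanSpace ℝ (Fin 3)),
        (K = D ∨ ∃ m : EuclideanSpace ℝ (Fin 3), m ≠ 0 ∧
          K = {x | x ∈ D ∧ 0 ≤ inner ℝ (x - c) m}) →
        ∃ f : ℕ → (EuclideanSpace ℝ (Fin 3) ≃ᵢ EuclideanSpace ℝ (Fin 3)),
          (∀ i j : ℕ, i ≠ j →
            Disjoint (interior ((f i) '' K)) (interior ((f j) '' K))) ∧
          ENNReal.ofReal (1 / Real.sqrt 3) ≤
            Filter.limsup
              (fun R : ℝ =>
                volume ((⋃ i : ℕ, (f i) '' K) ∩
                    Metric.ball (0 : EuclideanSpace ℝ (Fin 3)) R) /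
                  volume (Metric.ball (0 : EuclideanSpace ℝ (Fin 3)) R))
              Filter.atTop := by
  have hPln : PlnStmt := H23.pln H77.paa (H3.pab H77.paa) H75.pac
  have hStk : StkStmt := H46.stk H39.avd H51.hgt H36.sec
  have hCcv : CcvStmt := H19.ccv H36.sec
  have hTzr : TzrStmt := H82.tzr hPln hStk H51.hgt H36.sec hCcv H34.fub
  have hGpf : GpfStmt := H81.gpf hTzr H51.hgt H36.sec hCcv H34.fub
  have hDir : DirStmt := H16.dir hGpf H80.eea H13.eeb H42.eec H36.sec hCcv H51.hgt H34.fub
  have hUni : UniStmt := H45.uni hDir H2.inv H30.rot H51.hgt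
  have hGod : GodStmt := H19.god H24.iso H2.inv hUni H9.inc (H59.nrv H55.pol)
    (H39.avg (H81.slb H30.rot) H94.bal)
  exact H31.top2 hGod H88.lpd H90.adj Pool.Agent.UL4.H7.lpg

end Pool.Agent.Results.MP_c7c9bf_co.SymmetricBodies
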