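import Pool.Agent.Helper37_UL7.SGC
import Pool.Agent.Helper77_UL7.SGD
import Pool.Agent.Helper97_UL7.SGA
import Pool.Agent.Helper81_UL7.DHS
import Pool.Agent.Helper19_UL7.ZLI
import Pool.Agent.Helper69_UL7.ZON
import Pool.Agent.Helper88_UL7.BDP
import Pool.Agent.Helper95_UL7.MNP
import Pool.Agent.Helper2_UL7.VRP
import Pool.Agent.Helper50_UL7.ZIN
import Pool.Agent.Helper45_UL7.ZVX
import Pool.Agent.Helper81_UL7.ZAP
import Pool.Agent.Helper5_UL7.VLP
import Pool.Agent.Helper66_UL7.RSP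
import Pool.Agent.Helper50_UL7.SPV
import Pool.Agent.Helper34_UL7.GDS
import Pool.Agent.Helper89_UL7.INC
import Pool.Agent.Helper98_UL7.TIN
import Pool.Agent.Helper25_UL7.STP
import Pool.Agent.Helper26_UL7.HLF
import Pool.Agent.Helper19_UL7.TOP
import Pool.Agent.Helper32_UL7.HUL

/-!
# Ulam's bound for symmetric convex bodies spanned by two parallel faces, and for their halves

Let `D` be a convex body in 3-space with a centre of symmetry `c`, contained in the slab
`-1 ≤ ⟪x - c, n⟫ ≤ 1`, and `F` its intersection with the plane `⟪x - c, n⟫ = 1`. Suppose that every point of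
the central section `⟪x - c, n⟫ = 0` of `D` has the form `c + (r/2) (y - z)` with `y, z ∈ F` (for `r = 1`: the
convex hulls of `F ∪ (2 c - F)`, `F` a planar convex body; this case is the first part of the theorem). Then
`D`, and each half of `D` cut off by a plane through `c`, has a packing by congruent copies of density at least
`4 √3 / (9 r ^ 2)`; for `r = 1` this is `0.7698 > π / (3 √2) = 0.7405`.
-/

set_option autoImplicit false

namespace Pool.Agent.Results.MP_c7c9bf_co.SymmetricPrismatoids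

open MeasureTheory Pool.Agent.UL3 Pool.Agent.UL4 Pool.Agent.UL5 Pool.Agent.UL7

/-- `K` has a packing of upper density at least `δ`: there is a sequence of isometric copies of `K` with
pairwise disjoint interiors such that the limsup, as `R → ∞`, of the proportion of the ball of radius `R` about
the origin covered by the copies is at least `δ`. -/
def PacksWith (K : Set (EuclideanSpace ℝ (Fin 3))) (δ : ℝ) : Prop :=
  ∃ f : ℕ → (EuclideanSpace ℝ (Fin 3) ≃ᵢ EuclideanSpace ℝ (Fin 3)),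
    (∀ i j : ℕ, i ≠ j →
      Disjoint (interior ((f i) '' K)) (interior ((f j) '' K))) ∧
    ENNReal.ofReal δ ≤
      Filter.limsup
        (fun R : ℝ =>
          volume ((⋃ i : ℕ, (f i) '' K) ∩
              Metric.ball (0 : EuclideanSpace ℝ (Fin 3)) R) /
            volume (Metric.ball (0 : EuclideanSpace ℝ (Fin 3)) R))
        Filter.atTop

theorem result :
    (∀ (F : Set (EuclideanSpace ℝ (Fin 3))) (c n : EuclideanSpace ℝ (Fin 3)),
      IsCompact F → Convex ℝ F → F.Nonempty → (∀ x ∈ F, inner ℝ (x - c) n = 1) →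
      ∀ K : Set (EuclideanSpace ℝ (Fin 3)),
        (K = convexHull ℝ (F ∪ (fun x => (2 : ℝ) • c - x) '' F) ∨
          ∃ m : EuclideanSpace ℝ (Fin 3), m ≠ 0 ∧
            K = {x | x ∈ convexHull ℝ (F ∪ (fun x => (2 : ℝ) • c - x) '' F) ∧
              0 ≤ inner ℝ (x - c) m}) →
        (interior K).Nonempty → PacksWith K (4 * Real.sqrt 3 / 9)) ∧
    ∀ (D : Set (EuclideanSpace ℝ (Fin 3))) (c n : EuclideanSpace ℝ (Fin 3)) (r : ℝ),
      IsCompact D → Convex ℝ D → (interior D).Nonempty → (∀ x ∈ D, (2 : ℝ) • c - x ∈ D) →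
      (∀ x ∈ D, inner ℝ (x - c) n ≤ 1) → 0 < r →
      (∀ x ∈ D, inner ℝ (x - c) n = 0 → ∃ y ∈ D, ∃ z ∈ D, inner ℝ (y - c) n = 1 ∧
        inner ℝ (z - c) n = 1 ∧ x = c + (r / 2) • (y - z)) →
      ∀ K : Set (EuclideanSpace ℝ (Fin 3)),
        (K = D ∨ ∃ m : EuclideanSpace ℝ (Fin 3), m ≠ 0 ∧
          K = {x | x ∈ D ∧ 0 ≤ inner ℝ (x - c) m}) →
        (interior K).Nonempty → PacksWith K (4 * Real.sqrt 3 / (9 * r ^ 2)) := by
  have hSgc : SgcStmt := Pool.Agent.UL7.H37.sgc
  have hSga : SgaStmt := Pool.Agent.UL7.H97.sga Pool.Agent.UL7.H77.sgd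
  have hDhs : DhsStmt := Pool.Agent.UL7.H81.dhs
  have hZli : ZliStmt := Pool.Agent.UL7.H19.zli hSgc
  have hZon : ZonStmt := Pool.Agent.UL7.H69.zonArea hSgc hSga hDhs
  have hVrp : VrpStmt := Pool.Agent.UL7.H2.vrp Pool.Agent.UL7.H95.mnp
  have hZin : ZinStmt := Pool.Agent.UL7.H50.zin hVrp
  have hZvx : ZvxStmt := Pool.Agent.UL7.H45.zvx hZli
  have hZap : ZapStmt := Pool.Agent.UL7.H81.zap Pool.Agent.UL7.H88.bdp hZin hZvx hZli
  have hVlp : VlpStmt := Pool.Agent.UL7.H5.vlp hZon hZap hZli hDhs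
  have hSpv : SpvStmt := Pool.Agent.UL7.H50.spv hVlp Pool.Agent.UL7.H66.rsp hDhs
  have hGds : GdsStmt := Pool.Agent.UL7.H34.gds hSpv
  have hStp : StpStmt := Pool.Agent.UL7.H25.stp Pool.Agent.UL7.H98.tin
  have hTop : TopStmt := Pool.Agent.UL7.H19.top hStp hGds Pool.Agent.UL7.H89.inc
    Pool.Agent.UL7.H26.hlf
  refine ⟨?_, hTop⟩
  intro F c n h1 h2 h3 h4 K h5 h6
  have h7 := Pool.Agent.UL7.H32.hul hTop F c n h1 h2 h3 h4 K h5 h6
  have h8 : (4 * Real.sqrt 3 / (9 * 1 ^ 2) : ℝ) = 4 * Real.sqrt 3 / 9 := by norm_num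
  unfold Concl at h7
  rw [h8] at h7
  exact h7

end Pool.Agent.Results.MP_c7c9bf_co.SymmetricPrismatoids
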