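import Pool.Agent.Helper37_TET.ENOk
import Pool.Agent.Helper37_TET.ESOk
import Pool.Agent.Helper37_TET.ENZ
import Pool.Agent.Helper37_TET.ESZ
import Pool.Agent.Helper37_TET.ENC
import Pool.Agent.Helper37_TET.ESC
import Pool.Agent.Helper86_TET.FinD

/-!
# MP_c7c9bf_co: Ulam's bound for tetrahedra

Every tetrahedron whose longest edge is at most `3` times the shortest one, and more generally every
tetrahedron outside of one explicit region (short opposite edges `A C` and `B D` at the ends of a long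
edge `A B`), has a packing by congruent copies of upper density at least `π / (3 √2)`.
-/

set_option autoImplicit false

namespace Pool.Agent.Results.MP_c7c9bf_co.Tetrahedra

open MeasureTheory

/-- six conditions on the vertices `A, B, C, D` of a tetrahedron: `A C` and `B D` are short compared
with `A B`, and the feet of `C` and `D` on the line `A B` are near `A` and near `B` -/
def Exceptional (A B C D : EuclideanSpace ℝ (Fin 3)) : Prop :=
  dist A C ≤ 12 / 25 * dist A B ∧ dist B D ≤ 33 / 100 * dist A B ∧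
    inner ℝ (B - A) (C - A) ≤ 19 / 100 * dist A B ^ 2 ∧
    81 / 100 * dist A B ^ 2 ≤ inner ℝ (B - A) (D - A) ∧
    73 / 100 * dist A B ^ 2 ≤ inner ℝ (B - A) (D - C) ∧
    inner ℝ (B - A) (D - C) ≤ 7 / 8 * dist A B ^ 2

/-- `b i j` are the barycentric coordinates of the foot of the altitude from `p i` in the opposite
face -/
def Feet (p : Fin 4 → EuclideanSpace ℝ (Fin 3)) (b : Fin 4 → Fin 4 → ℝ) : Prop :=
  (∀ i, b i i = 0) ∧ (∀ i, ∑ j, b i j = 1) ∧
    (∀ i j k, j ≠ i → k ≠ i → inner ℝ (p i - ∑ l, b i l • p l) (p j - p k) = 0)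

/-- there is a sequence of isometric copies of `K` with pairwise disjoint interiors and with upper
density at least `d` -/
def PacksWith (K : Set (EuclideanSpace ℝ (Fin 3))) (d : ℝ) : Prop :=
  ∃ f : ℕ → (EuclideanSpace ℝ (Fin 3) ≃ᵢ EuclideanSpace ℝ (Fin 3)),
    (∀ i j : ℕ, i ≠ j → Disjoint (interior ((f i) '' K)) (interior ((f j) '' K))) ∧
    ENNReal.ofReal d ≤
      Filter.limsup
        (fun R : ℝ =>
          volume ((⋃ i : ℕ, (f i) '' K) ∩ Metric.ball (0 : EuclideanSpace ℝ (Fin 3)) R) /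
            volume (Metric.ball (0 : EuclideanSpace ℝ (Fin 3)) R))
        Filter.atTop

theorem result :
    ∀ p : Fin 4 → EuclideanSpace ℝ (Fin 3), AffineIndependent ℝ p →
      ((∀ i j k l : Fin 4, k ≠ l → dist (p i) (p j) ≤ 3 * dist (p k) (p l)) ∨
        (∀ A B C D : EuclideanSpace ℝ (Fin 3), Set.range p = {A, B, C, D} →
          ¬ Exceptional A B C D) ∨
        ∃ b : Fin 4 → Fin 4 → ℝ, Feet p b ∧
          ((∀ i j, 0 ≤ b i j) ∨ ∃ i, (∀ j, 0 ≤ b i j) ∧ ∀ j k, j ≠ k →
            ¬ (9 / 500 ≤ b i j ∧ b i j ≤ 17 / 200 ∧ 9 / 500 ≤ b i k ∧ b i k ≤ 17 / 200))) →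
      PacksWith (convexHull ℝ (Set.range p)) (Real.pi / (3 * Real.sqrt 2)) := by
  intro p hp h
  have h' := TET.finD TET.Cvr.EN_ok TET.EN_zc TET.Cvr.ES_ok TET.ES_zc TET.EN_cover TET.ES_cover p hp
  rcases h with h | h | ⟨b, hf, hc⟩
  · exact h' (Or.inl h)
  · exact h' (Or.inr (Or.inl h))
  · exact h' (Or.inr (Or.inr ⟨b, hf.1, hf.2.1, hf.2.2, hc⟩))

end Pool.Agent.Results.MP_c7c9bf_co.Tetrahedra
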